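import Pool.Agent.V5helper32.CM.Stm

/-!
# Project CM (helper32), job EADD: additivity of the Euler characteristic
-/

namespace Pool.Agent.V5helper17.CM

open Pool.Agent.V5helper32.CM

section

variable {Λ : Type} [Ring Λ] [Algebra ℂ Λ]

theorem mem_kx {x : Λ} (hx : ∀ l, x * l = l * x) {M : Type} [AddCommGroup M] [Module Λ M]
    {m : M} : m ∈ kx x M ↔ x • m = 0 := by
  constructor
  · intro h
    have h1 : x • (1 : Λ) • m = 0 := h 1
    rwa [one_smul] at h1
  · intro h l
    rw [smul_smul, hx, mul_smul, h, smul_zero]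

theorem mem_rx {x : Λ} (hx : ∀ l, x * l = l * x) {M : Type} [AddCommGroup M] [Module Λ M]
    {m : M} : m ∈ rx x M ↔ ∃ n : M, x • n = m := by
  constructor
  · intro h
    induction h using Submodule.span_induction with
    | mem v hv =>
      obtain ⟨n, hn⟩ := hv
      exact ⟨n, hn⟩
    | zero => exact ⟨0, smul_zero x⟩
    | add v w _ _ hv hw =>
      obtain ⟨a, ha⟩ := hv
      obtain ⟨b, hb⟩ := hw
      exact ⟨a + b, by rw [smul_add, ha, hb]⟩
    | smul c v _ hv =>
      obtain ⟨a, ha⟩ := hv
      exact ⟨c • a, by rw [smul_smul, hx, mul_smul, ha]⟩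
  · rintro ⟨n, hn⟩
    exact Submodule.subset_span ⟨n, hn⟩

/-- A linear map which is induced on a quotient. -/
theorem exists_desc {K A B : Type} [AddCommGroup K] [Module Λ K] [AddCommGroup A] [Module Λ A]
    [AddCommGroup B] [Module Λ B] (q : K →ₗ[Λ] A) (hq : Function.Surjective q) (b : K →ₗ[Λ] B)
    (h : ∀ k, q k = 0 → b k = 0) : ∃ β : A →ₗ[Λ] B, ∀ k, β (q k) = b k := by
  refine ⟨((LinearMap.ker q).liftQ b ?_).comp (q.quotKerEquivOfSurjective hq).symm.toLinearMap, ?_⟩
  · intro k hk
    rw [LinearMap.mem_ker] at hk ⊢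
    exact h k hk
  · intro k
    have h1 : (q.quotKerEquivOfSurjective hq).symm (q k) = Submodule.Quotient.mk k := by
      rw [LinearEquiv.symm_apply_eq]
      rfl
    rw [LinearMap.comp_apply, LinearEquiv.coe_coe, h1]
    exact Submodule.liftQ_apply _ _ _

/-- Two surjections with the same kernel have isomorphic targets. -/
theorem exists_equiv_of_surj {K A B : Type} [AddCommGroup K] [Module Λ K] [AddCommGroup A]
    [Module Λ A] [AddCommGroup B] [Module Λ B] (f : K →ₗ[Λ] A) (hf : Function.Surjective f)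
    (g : K →ₗ[Λ] B) (hg : Function.Surjective g) (h : ∀ k, f k = 0 ↔ g k = 0) :
    Nonempty (A ≃ₗ[Λ] B) := by
  have h1 : LinearMap.ker f = LinearMap.ker g := by
    ext k
    rw [LinearMap.mem_ker, LinearMap.mem_ker]
    exact h k
  exact ⟨(f.quotKerEquivOfSurjective hf).symm.trans
    ((Submodule.quotEquivOfEq _ _ h1).trans (g.quotKerEquivOfSurjective hg))⟩

/-- Two injections with the same range have isomorphic sources. -/
theorem exists_equiv_of_inj {K A B : Type} [AddCommGroup K] [Module Λ K] [AddCommGroup A]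
    [Module Λ A] [AddCommGroup B] [Module Λ B] (f : A →ₗ[Λ] K) (hf : Function.Injective f)
    (g : B →ₗ[Λ] K) (hg : Function.Injective g) (h : ∀ k, (∃ a, f a = k) ↔ ∃ b, g b = k) :
    Nonempty (A ≃ₗ[Λ] B) := by
  have h1 : LinearMap.range f = LinearMap.range g := by
    ext k
    rw [LinearMap.mem_range, LinearMap.mem_range]
    exact h k
  exact ⟨(LinearEquiv.ofInjective f hf).trans
    ((LinearEquiv.ofEq _ _ h1).trans (LinearEquiv.ofInjective g hg).symm)⟩

/-- Additivity of a function `E` on the modules with a property. -/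
def AddOn (E : Fn Λ) (Q : ∀ (M : Type) [AddCommGroup M] [Module ℂ M] [Module Λ M]
    [IsScalarTower ℂ Λ M], Prop) : Prop :=
  ∀ (M : Type) [AddCommGroup M] [Module ℂ M] [Module Λ M] [IsScalarTower ℂ Λ M],
      Q M → ∀ N : Submodule Λ M, E M = E N + E (M ⧸ N)

theorem ker_range {E : Fn Λ} {Q : ∀ (M : Type) [AddCommGroup M] [Module ℂ M] [Module Λ M]
    [IsScalarTower ℂ Λ M], Prop} (hi : IsoFn E) (ha : AddOn E Q)
    {A B : Type} [AddCommGroup A] [Module ℂ A] [Module Λ A] [IsScalarTower ℂ Λ A]
    [AddCommGroup B] [Module ℂ B] [Module Λ B] [IsScalarTower ℂ Λ B] (hQ : Q A)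
    (f : A →ₗ[Λ] B) : E A = E (LinearMap.ker f) + E (LinearMap.range f) := by
  rw [ha A hQ (LinearMap.ker f), hi _ _ f.quotKerEquivRange]

end

theorem t_EADD (hEISO : S_EISO) : S_EADD := by
  intro Λ _ _ φ hφi hφa P hP xs
  induction xs with
  | nil =>
    intro _ M _ _ _ _ hPM N
    have hfd : FiniteDimensional ℂ M := hP.nil M hPM
    exact hφa M N
  | cons x xs ih =>
    intro hc M _ _ _ _ hPM N
    have hx : ∀ l, x * l = l * x := hc x List.mem_cons_self
    have hcx : CenL xs := fun y hy => hc y (List.mem_cons_of_mem _ hy)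
    have hi : IsoFn (EE φ xs) := hEISO Λ φ hφi xs
    have ha : AddOn (EE φ xs) (fun M _ _ _ _ => P xs M) := fun M _ _ _ _ hM N => ih hcx M hM N
    have hkill : ∀ (A : Type) [AddCommGroup A] [Module ℂ A] [Module Λ A] [IsScalarTower ℂ Λ A],
        P (x :: xs) A → P xs (kx x A) ∧ P xs (A ⧸ rx x A) := by
      intro A _ _ _ _ hA
      constructor
      · refine hP.cons x xs hc _ ?_ (hP.sub _ hc A _ hA)
        rintro ⟨m, hm⟩
        exact Subtype.ext ((mem_kx hx).1 hm)
      · refine hP.cons x xs hc _ ?_ (hP.quo _ hc A _ hA)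
        intro m
        obtain ⟨n, rfl⟩ := Submodule.Quotient.mk_surjective _ m
        rw [← Submodule.Quotient.mk_smul, Submodule.Quotient.mk_eq_zero]
        exact (mem_rx hx).2 ⟨n, rfl⟩
    obtain ⟨hPk, hPr⟩ := hkill M hPM
    have hPN : P (x :: xs) N := hP.sub _ hc M N hPM
    have hPQ : P (x :: xs) (M ⧸ N) := hP.quo _ hc M N hPM
    obtain ⟨hPNk, hPNr⟩ := hkill N hPN
    obtain ⟨hPQk, hPQr⟩ := hkill (M ⧸ N) hPQ
    -- the maps
    -- α : M[x] → (M/N)[x]
    let α : kx x M →ₗ[Λ] kx x (M ⧸ N) :=
      (N.mkQ.comp (kx x M).subtype).codRestrict (kx x (M ⧸ N)) (by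
        rintro ⟨m, hm⟩
        rw [mem_kx hx]
        show x • N.mkQ m = 0
        rw [← map_smul, (mem_kx hx).1 hm, map_zero])
    have hα : ∀ m, ((α m : kx x (M ⧸ N)) : M ⧸ N) = N.mkQ (m : M) := fun m => rfl
    -- γ : N/xN → M/xM
    let γ : (N ⧸ rx x N) →ₗ[Λ] (M ⧸ rx x M) :=
      (rx x N).mapQ (rx x M) N.subtype (by
        intro n hn
        obtain ⟨k, hk⟩ := (mem_rx hx).1 hn
        rw [Submodule.mem_comap]
        refine (mem_rx hx).2 ⟨(k : M), ?_⟩
        rw [← hk]
        rfl)
    have hγ : ∀ n : N, γ (Submodule.Quotient.mk n) = Submodule.Quotient.mk (n : M) := fun n => rfl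
    -- K and the connecting map
    let K : Submodule Λ M :=
      { carrier := {m | x • m ∈ N}
        add_mem' := by
          intro a b ha hb
          show x • (a + b) ∈ N
          rw [smul_add]
          exact N.add_mem ha hb
        zero_mem' := by
          show x • (0 : M) ∈ N
          rw [smul_zero]
          exact N.zero_mem
        smul_mem' := by
          intro c m hm
          show x • c • m ∈ N
          rw [smul_smul, hx, mul_smul]
          exact N.smul_mem c hm }
    have hK : ∀ m, m ∈ K ↔ x • m ∈ N := fun m => Iff.rfl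
    let q : K →ₗ[Λ] kx x (M ⧸ N) :=
      (N.mkQ.comp K.subtype).codRestrict (kx x (M ⧸ N)) (by
        rintro ⟨m, hm⟩
        rw [mem_kx hx]
        show x • N.mkQ m = 0
        rw [← map_smul, Submodule.mkQ_apply, Submodule.Quotient.mk_eq_zero]
        exact hm)
    have hqv : ∀ k, ((q k : kx x (M ⧸ N)) : M ⧸ N) = N.mkQ (k : M) := fun m => rfl
    have hq : Function.Surjective q := by
      rintro ⟨v, hv⟩
      obtain ⟨m, rfl⟩ := Submodule.Quotient.mk_surjective _ v
      refine ⟨⟨m, ?_⟩, Subtype.ext rfl⟩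
      rw [hK]
      have h1 := (mem_kx hx).1 hv
      rwa [← Submodule.Quotient.mk_smul, Submodule.Quotient.mk_eq_zero] at h1
    let b : K →ₗ[Λ] (N ⧸ rx x N) :=
      { toFun := fun k => Submodule.Quotient.mk ⟨x • (k : M), k.2⟩
        map_add' := by
          intro k l
          rw [← Submodule.Quotient.mk_add]
          congr 1
          apply Subtype.ext
          show x • ((k : M) + (l : M)) = x • (k : M) + x • (l : M)
          rw [smul_add]
        map_smul' := by
          intro c k
          rw [RingHom.id_apply, ← Submodule.Quotient.mk_smul]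
          congr 1
          apply Subtype.ext
          show x • c • (k : M) = c • x • (k : M)
          rw [smul_smul, hx, mul_smul] }
    have hb : ∀ k, b k = Submodule.Quotient.mk ⟨x • (k : M), k.2⟩ := fun k => rfl
    have hqz : ∀ k, q k = 0 ↔ (k : M) ∈ N := by
      intro k
      rw [← Subtype.coe_inj, hqv, Submodule.mkQ_apply]
      exact Submodule.Quotient.mk_eq_zero N
    have hbz : ∀ k, b k = 0 ↔ ∃ n : N, x • (n : M) = x • (k : M) := by
      intro k
      rw [hb, Submodule.Quotient.mk_eq_zero, mem_rx hx]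
      constructor
      · rintro ⟨n, hn⟩
        exact ⟨n, congrArg Subtype.val hn⟩
      · rintro ⟨n, hn⟩
        exact ⟨n, Subtype.ext hn⟩
    obtain ⟨β, hβ⟩ := exists_desc q hq b (fun k hk => by
      rw [hbz]
      exact ⟨⟨k, (hqz k).1 hk⟩, rfl⟩)
    -- ker α ≅ N[x]
    have e1 : EE φ xs (LinearMap.ker α) = EE φ xs (kx x N) := by
      obtain ⟨e⟩ := exists_equiv_of_inj (Λ := Λ) (K := M)
        ((kx x M).subtype.comp (LinearMap.ker α).subtype)
        (fun a b h => Subtype.ext (Subtype.ext h)) (N.subtype.comp (kx x N).subtype)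
        (fun a b h => Subtype.ext (Subtype.ext h)) (by
          intro m
          constructor
          · rintro ⟨⟨⟨a, ha⟩, ha'⟩, rfl⟩
            have h2 : a ∈ N := by
              rw [LinearMap.mem_ker, ← Subtype.coe_inj, hα] at ha'
              exact (Submodule.Quotient.mk_eq_zero N).1 ha'
            refine ⟨⟨⟨a, h2⟩, ?_⟩, rfl⟩
            rw [mem_kx hx]
            exact Subtype.ext ((mem_kx hx).1 ha)
          · rintro ⟨⟨⟨a, ha⟩, ha'⟩, rfl⟩
            refine ⟨⟨⟨a, ?_⟩, ?_⟩, rfl⟩
            · rw [mem_kx hx]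
              exact congrArg Subtype.val ((mem_kx hx).1 ha')
            · rw [LinearMap.mem_ker, ← Subtype.coe_inj, hα]
              exact (Submodule.Quotient.mk_eq_zero N).2 ha)
      exact hi _ _ e
    -- ker β = range α
    have e2 : LinearMap.ker β = LinearMap.range α := by
      ext v
      obtain ⟨k, rfl⟩ := hq v
      rw [LinearMap.mem_ker, hβ, hbz, LinearMap.mem_range]
      constructor
      · rintro ⟨n, hn⟩
        refine ⟨⟨(k : M) - n, ?_⟩, ?_⟩
        · rw [mem_kx hx, smul_sub, hn, sub_self]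
        · apply Subtype.ext
          rw [hα, hqv, map_sub]
          have h3 : N.mkQ (n : M) = 0 := (Submodule.Quotient.mk_eq_zero N).2 n.2
          rw [h3, sub_zero]
      · rintro ⟨⟨a, ha⟩, h4⟩
        have h5 : N.mkQ a = N.mkQ (k : M) := by
          rw [← hqv, ← h4, hα]
        rw [Submodule.mkQ_apply, Submodule.mkQ_apply, Submodule.Quotient.eq] at h5
        refine ⟨⟨(k : M) - a, ?_⟩, ?_⟩
        · rw [← neg_sub]
          exact N.neg_mem h5
        · show x • ((k : M) - a) = x • (k : M)
          rw [smul_sub, (mem_kx hx).1 ha, sub_zero]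
    -- ker γ = range β
    have e3 : LinearMap.ker γ = LinearMap.range β := by
      ext v
      obtain ⟨n, rfl⟩ := Submodule.Quotient.mk_surjective _ v
      rw [LinearMap.mem_ker, hγ, Submodule.Quotient.mk_eq_zero, mem_rx hx, LinearMap.mem_range]
      constructor
      · rintro ⟨m, hm⟩
        refine ⟨q ⟨m, ?_⟩, ?_⟩
        · rw [hK, hm]
          exact n.2
        · rw [hβ, hb]
          congr 1
          exact Subtype.ext hm
      · rintro ⟨w, hw⟩
        obtain ⟨k, rfl⟩ := hq w
        rw [hβ, hb, Submodule.Quotient.eq, mem_rx hx] at hw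
        obtain ⟨n', hn'⟩ := hw
        refine ⟨(k : M) - n', ?_⟩
        have h6 : x • (n' : M) = x • (k : M) - n := congrArg Subtype.val hn'
        rw [smul_sub, h6]
        abel
    -- coker γ
    have e4 : EE φ xs ((M ⧸ rx x M) ⧸ LinearMap.range γ) = EE φ xs ((M ⧸ N) ⧸ rx x (M ⧸ N)) := by
      obtain ⟨e⟩ := exists_equiv_of_surj (Λ := Λ) (K := M)
        ((LinearMap.range γ).mkQ.comp (rx x M).mkQ)
        ((Submodule.mkQ_surjective _).comp (Submodule.mkQ_surjective _))
        ((rx x (M ⧸ N)).mkQ.comp N.mkQ)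
        ((Submodule.mkQ_surjective _).comp (Submodule.mkQ_surjective _)) (by
          intro m
          rw [LinearMap.comp_apply, LinearMap.comp_apply, Submodule.mkQ_apply,
            Submodule.mkQ_apply, Submodule.mkQ_apply, Submodule.mkQ_apply,
            Submodule.Quotient.mk_eq_zero, Submodule.Quotient.mk_eq_zero, mem_rx hx,
            LinearMap.mem_range]
          constructor
          · rintro ⟨v, hv⟩
            obtain ⟨n, rfl⟩ := Submodule.Quotient.mk_surjective _ v
            rw [hγ, Submodule.Quotient.eq, mem_rx hx] at hv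
            obtain ⟨k, hk⟩ := hv
            refine ⟨Submodule.Quotient.mk (-k), ?_⟩
            rw [← Submodule.Quotient.mk_smul, Submodule.Quotient.eq, smul_neg, hk]
            have h7 : -((n : M) - m) - m = -(n : M) := by abel
            rw [h7]
            exact N.neg_mem n.2
          · rintro ⟨v, hv⟩
            obtain ⟨k, rfl⟩ := Submodule.Quotient.mk_surjective _ v
            rw [← Submodule.Quotient.mk_smul, Submodule.Quotient.eq] at hv
            refine ⟨Submodule.Quotient.mk ⟨-(x • k - m), N.neg_mem hv⟩, ?_⟩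
            rw [hγ, Submodule.Quotient.eq, mem_rx hx]
            refine ⟨-k, ?_⟩
            rw [smul_neg]
            show -(x • k) = -(x • k - m) - m
            abel)
      exact hi _ _ e
    have h1 := ker_range hi ha hPk α
    have h2 := ker_range hi ha hPQk β
    have h3 := ker_range hi ha hPNr γ
    have h4 := ha _ hPr (LinearMap.range γ)
    rw [e1] at h1
    rw [e2] at h2
    rw [e3] at h3
    rw [e4] at h4
    show EE φ xs (M ⧸ rx x M) - EE φ xs (kx x M) = (EE φ xs (N ⧸ rx x N) - EE φ xs (kx x N)) +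
      (EE φ xs ((M ⧸ N) ⧸ rx x (M ⧸ N)) - EE φ xs (kx x (M ⧸ N)))
    rw [h1, h2, h3, h4]
    ring

end Pool.Agent.V5helper17.CM
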