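import Pool.Agent.V5helper17.CM.EADD

/-!
# Project CM (helper32), job ESWAP: the order of the list does not matter
-/

namespace Pool.Agent.V5helper17.CM

open Pool.Agent.V5helper32.CM

section

variable {Λ : Type} [Ring Λ]

/-- Multiplication by a central element. -/
def lx (x : Λ) (hx : ∀ l, x * l = l * x) (M : Type) [AddCommGroup M] [Module Λ M] :
    M →ₗ[Λ] M where
  toFun m := x • m
  map_add' := smul_add x
  map_smul' c m := by rw [RingHom.id_apply, smul_smul, hx, mul_smul]

/-- The pairs with `x a + y b = 0`. -/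
def HZ (x y : Λ) (hx : ∀ l, x * l = l * x) (hy : ∀ l, y * l = l * y) (M : Type) [AddCommGroup M]
    [Module Λ M] : Submodule Λ (M × M) :=
  LinearMap.ker ((lx x hx M).comp (LinearMap.fst Λ M M) + (lx y hy M).comp (LinearMap.snd Λ M M))

/-- The pairs `(y m, - x m)`. -/
def HB (x y : Λ) (hx : ∀ l, x * l = l * x) (hy : ∀ l, y * l = l * y) (M : Type) [AddCommGroup M]
    [Module Λ M] : Submodule Λ (M × M) :=
  LinearMap.range ((lx y hy M).prod (-(lx x hx M)))

theorem mem_HZ {x y : Λ} {hx : ∀ l, x * l = l * x} {hy : ∀ l, y * l = l * y} {M : Type}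
    [AddCommGroup M] [Module Λ M] {v : M × M} :
    v ∈ HZ x y hx hy M ↔ x • v.1 + y • v.2 = 0 := Iff.rfl

theorem mem_HB {x y : Λ} {hx : ∀ l, x * l = l * x} {hy : ∀ l, y * l = l * y} {M : Type}
    [AddCommGroup M] [Module Λ M] {v : M × M} :
    v ∈ HB x y hx hy M ↔ ∃ m : M, y • m = v.1 ∧ -(x • m) = v.2 := by
  constructor
  · rintro ⟨m, hm⟩
    exact ⟨m, congrArg Prod.fst hm, congrArg Prod.snd hm⟩
  · rintro ⟨m, h1, h2⟩
    exact ⟨m, Prod.ext h1 h2⟩

/-- The middle homology. -/
abbrev HH (x y : Λ) (hx : ∀ l, x * l = l * x) (hy : ∀ l, y * l = l * y) (M : Type) [AddCommGroup M]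
    [Module Λ M] : Type :=
  HZ x y hx hy M ⧸ (HB x y hx hy M).comap (HZ x y hx hy M).subtype

end

section

variable {Λ : Type} [Ring Λ] [Algebra ℂ Λ]

theorem kill {P : Pr Λ} (hP : Good P) {x : Λ} {xs : List Λ} (hc : CenL (x :: xs)) (A : Type)
    [AddCommGroup A] [Module ℂ A] [Module Λ A] [IsScalarTower ℂ Λ A] (hA : P (x :: xs) A) :
    P xs (kx x A) ∧ P xs (A ⧸ rx x A) := by
  have hx : ∀ l, x * l = l * x := hc x List.mem_cons_self
  constructor
  · refine hP.cons x xs hc _ ?_ (hP.sub _ hc A _ hA)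
    rintro ⟨m, hm⟩
    exact Subtype.ext ((mem_kx hx).1 hm)
  · refine hP.cons x xs hc _ ?_ (hP.quo _ hc A _ hA)
    intro m
    obtain ⟨n, rfl⟩ := Submodule.Quotient.mk_surjective _ m
    rw [← Submodule.Quotient.mk_smul, Submodule.Quotient.mk_eq_zero]
    exact (mem_rx hx).2 ⟨n, rfl⟩

theorem P_HH {P : Pr Λ} (hP : Good P) {x y : Λ} {xs : List Λ} (hc : CenL (x :: y :: xs))
    (hx : ∀ l, x * l = l * x) (hy : ∀ l, y * l = l * y) (M : Type)
    [AddCommGroup M] [Module ℂ M] [Module Λ M] [IsScalarTower ℂ Λ M] (hM : P (x :: y :: xs) M) :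
    P xs (HH x y hx hy M) := by
  have h1 : P (x :: y :: xs) (M × M) := by
    refine hP.ext _ hc (M × M) (LinearMap.ker (LinearMap.snd Λ M M)) ?_ ?_
    · obtain ⟨e⟩ := exists_equiv_of_inj (Λ := Λ) (K := M × M) (LinearMap.inl Λ M M)
        LinearMap.inl_injective (LinearMap.ker (LinearMap.snd Λ M M)).subtype
        Subtype.val_injective (by
          rintro ⟨a, b⟩
          constructor
          · rintro ⟨c, hc⟩
            refine ⟨⟨(a, b), ?_⟩, rfl⟩
            rw [LinearMap.mem_ker]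
            exact (congrArg Prod.snd hc).symm
          · rintro ⟨⟨c, hc⟩, hc'⟩
            refine ⟨a, ?_⟩
            rw [LinearMap.mem_ker] at hc
            have h3 : c = (a, b) := hc'
            rw [h3] at hc
            exact Prod.ext rfl hc.symm)
      exact hP.iso _ hc _ _ e hM
    · exact hP.iso _ hc _ _ ((LinearMap.snd Λ M M).quotKerEquivOfSurjective
        LinearMap.snd_surjective).symm hM
  have h2 := hP.sub _ hc _ (HZ x y hx hy M) h1
  have h3 := hP.quo _ hc _ ((HB x y hx hy M).comap (HZ x y hx hy M).subtype) h2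
  have hc' : CenL (y :: xs) := fun z hz => hc z (List.mem_cons_of_mem _ hz)
  refine hP.cons y xs hc' _ ?_ (hP.cons x (y :: xs) hc _ ?_ h3)
  · intro m
    obtain ⟨⟨⟨a, b⟩, hab⟩, rfl⟩ := Submodule.Quotient.mk_surjective _ m
    rw [← Submodule.Quotient.mk_smul, Submodule.Quotient.mk_eq_zero, Submodule.mem_comap, mem_HB]
    have h4 : x • a + y • b = 0 := hab
    refine ⟨a, rfl, ?_⟩
    show -(x • a) = y • b
    rw [neg_eq_iff_add_eq_zero]
    exact h4
  · intro m
    obtain ⟨⟨⟨a, b⟩, hab⟩, rfl⟩ := Submodule.Quotient.mk_surjective _ m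
    rw [← Submodule.Quotient.mk_smul, Submodule.Quotient.mk_eq_zero, Submodule.mem_comap, mem_HB]
    have h4 : x • a + y • b = 0 := hab
    refine ⟨-b, ?_, ?_⟩
    · show y • (-b) = x • a
      rw [smul_neg, neg_eq_iff_add_eq_zero, add_comm]
      exact h4
    · show -(x • (-b)) = x • b
      rw [smul_neg, neg_neg]

theorem EHH {E : Fn Λ} {Q : ∀ (M : Type) [AddCommGroup M] [Module ℂ M] [Module Λ M]
    [IsScalarTower ℂ Λ M], Prop} (hi : IsoFn E) (ha : AddOn E Q)
    {x y : Λ} (hx : ∀ l, x * l = l * x) (hy : ∀ l, y * l = l * y) (M : Type)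
    [AddCommGroup M] [Module ℂ M] [Module Λ M] [IsScalarTower ℂ Λ M] (hQ : Q (HH x y hx hy M)) :
    E (HH x y hx hy M) = E (kx x M ⧸ rx y (kx x M)) + E (kx y (M ⧸ rx x M)) := by
  let F : HH x y hx hy M →ₗ[Λ] M ⧸ rx x M :=
    ((HB x y hx hy M).comap (HZ x y hx hy M).subtype).liftQ
      ((rx x M).mkQ.comp ((LinearMap.snd Λ M M).comp (HZ x y hx hy M).subtype)) (by
        rintro ⟨⟨a, b⟩, hab⟩ hv
        rw [Submodule.mem_comap, mem_HB] at hv
        obtain ⟨m, _, hm⟩ := hv
        rw [LinearMap.mem_ker]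
        show (rx x M).mkQ b = 0
        rw [Submodule.mkQ_apply, Submodule.Quotient.mk_eq_zero, mem_rx hx]
        refine ⟨-m, ?_⟩
        rw [smul_neg]
        exact hm)
  have hF : ∀ v : HZ x y hx hy M, F (Submodule.Quotient.mk v) = Submodule.Quotient.mk (v : M × M).2 :=
    fun v => rfl
  rw [ker_range hi ha hQ F]
  have h1 : LinearMap.range F = kx y (M ⧸ rx x M) := by
    ext v
    obtain ⟨b, rfl⟩ := Submodule.Quotient.mk_surjective _ v
    rw [LinearMap.mem_range, mem_kx hy, ← Submodule.Quotient.mk_smul,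
      Submodule.Quotient.mk_eq_zero, mem_rx hx]
    constructor
    · rintro ⟨w, hw⟩
      obtain ⟨⟨⟨a, b'⟩, hab⟩, rfl⟩ := Submodule.Quotient.mk_surjective _ w
      rw [hF, Submodule.Quotient.eq, mem_rx hx] at hw
      obtain ⟨n, hn⟩ := hw
      have h4 : x • a + y • b' = 0 := hab
      have h5 : x • n = b' - b := hn
      refine ⟨-a - y • n, ?_⟩
      rw [smul_sub, smul_neg, smul_smul, hx, mul_smul, h5, smul_sub]
      have h6 : y • b' = -(x • a) := by
        rw [eq_neg_iff_add_eq_zero, add_comm]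
        exact h4
      rw [h6]
      abel
    · rintro ⟨n, hn⟩
      refine ⟨Submodule.Quotient.mk ⟨(-n, b), ?_⟩, rfl⟩
      rw [mem_HZ]
      show x • (-n) + y • b = 0
      rw [smul_neg, hn, neg_add_cancel]
  have h2 : E (LinearMap.ker F) = E (kx x M ⧸ rx y (kx x M)) := by
    let G : kx x M →ₗ[Λ] LinearMap.ker F :=
      { toFun := fun a => ⟨Submodule.Quotient.mk ⟨((a : M), 0), by
            rw [mem_HZ]
            show x • (a : M) + y • (0 : M) = 0
            rw [smul_zero, add_zero]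
            exact (mem_kx hx).1 a.2⟩, by
            rw [LinearMap.mem_ker, hF]
            rfl⟩
        map_add' := by
          intro a b
          apply Subtype.ext
          show (Submodule.Quotient.mk _ : HH x y hx hy M) =
            Submodule.Quotient.mk _ + Submodule.Quotient.mk _
          rw [← Submodule.Quotient.mk_add]
          congr 1
          apply Subtype.ext
          show ((a : M) + (b : M), (0 : M)) = ((a : M) + (b : M), (0 : M) + 0)
          rw [add_zero]
        map_smul' := by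
          intro c a
          apply Subtype.ext
          show (Submodule.Quotient.mk _ : HH x y hx hy M) = c • Submodule.Quotient.mk _
          rw [← Submodule.Quotient.mk_smul]
          congr 1
          apply Subtype.ext
          show (c • (a : M), (0 : M)) = (c • (a : M), c • (0 : M))
          rw [smul_zero] }
    have hG : ∀ a : kx x M, ∃ h, ((G a : LinearMap.ker F) : HH x y hx hy M) =
      Submodule.Quotient.mk ⟨((a : M), 0), h⟩ := fun a => ⟨_, rfl⟩
    obtain ⟨e⟩ := exists_equiv_of_surj (Λ := Λ) (K := kx x M) G (by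
      rintro ⟨w, hw⟩
      obtain ⟨⟨⟨a, b⟩, hab⟩, rfl⟩ := Submodule.Quotient.mk_surjective _ w
      rw [LinearMap.mem_ker, hF, Submodule.Quotient.mk_eq_zero, mem_rx hx] at hw
      obtain ⟨m, hm⟩ := hw
      have h4 : x • a + y • b = 0 := hab
      have h5 : x • m = b := hm
      have h6 : a + y • m ∈ kx x M := by
        rw [mem_kx hx, smul_add, smul_smul, hx, mul_smul, h5]
        exact h4
      refine ⟨⟨a + y • m, h6⟩, ?_⟩
      apply Subtype.ext
      obtain ⟨h7, h8⟩ := hG ⟨a + y • m, h6⟩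
      rw [h8, Submodule.Quotient.eq, Submodule.mem_comap, mem_HB]
      refine ⟨m, ?_, ?_⟩
      · show y • m = a + y • m - a
        rw [add_sub_cancel_left]
      · show -(x • m) = 0 - b
        rw [h5, zero_sub]) (rx y (kx x M)).mkQ (Submodule.mkQ_surjective _) (by
      intro a
      obtain ⟨h7, h8⟩ := hG a
      rw [← Subtype.coe_inj, h8, Submodule.mkQ_apply, Submodule.Quotient.mk_eq_zero, mem_rx hy]
      have h9 : (Submodule.Quotient.mk ⟨((a : M), 0), h7⟩ : HH x y hx hy M) = 0 ↔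
          ∃ m : M, y • m = a ∧ -(x • m) = 0 := by
        rw [Submodule.Quotient.mk_eq_zero, Submodule.mem_comap, mem_HB]
        rfl
      refine h9.trans ?_
      constructor
      · rintro ⟨m, h1, h2⟩
        exact ⟨⟨m, (mem_kx hx).2 (neg_eq_zero.1 h2)⟩, Subtype.ext h1⟩
      · rintro ⟨m, h1⟩
        exact ⟨m, congrArg Subtype.val h1, by rw [(mem_kx hx).1 m.2, neg_zero]⟩)
    exact hi _ _ e
  rw [h1, h2]

theorem EHH_swap {E : Fn Λ} (hi : IsoFn E)
    {x y : Λ} (hx : ∀ l, x * l = l * x) (hy : ∀ l, y * l = l * y) (M : Type)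
    [AddCommGroup M] [Module ℂ M] [Module Λ M] [IsScalarTower ℂ Λ M] :
    E (HH x y hx hy M) = E (HH y x hy hx M) := by
  let S : HZ x y hx hy M →ₗ[Λ] HZ y x hy hx M :=
    { toFun := fun v => ⟨((v : M × M).2, (v : M × M).1), by
        rw [mem_HZ]
        show y • (v : M × M).2 + x • (v : M × M).1 = 0
        rw [add_comm]
        exact v.2⟩
      map_add' := fun v w => rfl
      map_smul' := fun c v => rfl }
  obtain ⟨e⟩ := exists_equiv_of_surj (Λ := Λ) (K := HZ x y hx hy M)
    ((HB x y hx hy M).comap (HZ x y hx hy M).subtype).mkQ (Submodule.mkQ_surjective _)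
    (((HB y x hy hx M).comap (HZ y x hy hx M).subtype).mkQ.comp S)
    ((Submodule.mkQ_surjective _).comp (by
      rintro ⟨⟨a, b⟩, hab⟩
      have h4 : y • a + x • b = 0 := hab
      exact ⟨⟨(b, a), by
        rw [mem_HZ]
        show x • b + y • a = 0
        rw [add_comm]
        exact h4⟩, rfl⟩)) (by
    rintro ⟨⟨a, b⟩, hab⟩
    rw [LinearMap.comp_apply, Submodule.mkQ_apply, Submodule.mkQ_apply,
      Submodule.Quotient.mk_eq_zero, Submodule.Quotient.mk_eq_zero, Submodule.mem_comap,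
      Submodule.mem_comap, mem_HB, mem_HB]
    show (∃ m : M, y • m = a ∧ -(x • m) = b) ↔ ∃ m : M, x • m = b ∧ -(y • m) = a
    constructor
    · rintro ⟨m, h1, h2⟩
      exact ⟨-m, by rw [smul_neg]; exact h2, by rw [smul_neg, neg_neg]; exact h1⟩
    · rintro ⟨m, h1, h2⟩
      exact ⟨-m, by rw [smul_neg]; exact h2, by rw [smul_neg, neg_neg]; exact h1⟩)
  exact hi _ _ e

end

theorem t_ESWAP (hEISO : S_EISO) (hEADD : S_EADD) : S_ESWAP := by
  intro Λ _ _ φ hφi hφa P hP xs ys h
  induction h with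
  | nil =>
    intro _ M _ _ _ _ _
    rfl
  | cons x h ih =>
    rename_i l₁ l₂
    intro hc M _ _ _ _ hM
    have hc' : CenL l₁ := fun z hz => hc z (List.mem_cons_of_mem _ hz)
    obtain ⟨h1, h2⟩ := kill hP hc M hM
    show EE φ l₁ (M ⧸ rx x M) - EE φ l₁ (kx x M) = EE φ l₂ (M ⧸ rx x M) - EE φ l₂ (kx x M)
    rw [ih hc' _ h1, ih hc' _ h2]
  | trans h1 h2 ih1 ih2 =>
    rename_i l₁ l₂ l₃
    intro hc M _ _ _ _ hM
    have hc' : CenL l₂ := fun z hz => hc z (h1.mem_iff.2 hz)
    rw [ih1 hc M hM, ih2 hc' M (hP.perm _ _ hc h1 M hM)]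
  | swap y x l =>
    intro hc M _ _ _ _ hM
    have hx : ∀ l, x * l = l * x := hc x List.mem_cons_self
    have hy : ∀ l, y * l = l * y := hc y (List.mem_cons_of_mem _ List.mem_cons_self)
    have hcl : CenL l := fun z hz => hc z (List.mem_cons_of_mem _ (List.mem_cons_of_mem _ hz))
    have hi : IsoFn (EE φ l) := hEISO Λ φ hφi l
    have ha : AddOn (EE φ l) (fun M _ _ _ _ => P l M) :=
      fun M _ _ _ _ hM N => hEADD Λ φ hφi hφa P hP l hcl M hM N
    have hc2 : CenL (y :: x :: l) := fun z hz => hc z ((List.Perm.swap x y l).mem_iff.1 hz)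
    have hM2 : P (y :: x :: l) M := hP.perm _ _ hc (List.Perm.swap y x l) M hM
    have h1 := EHH hi ha hx hy M (P_HH hP hc hx hy M hM)
    have h2 := EHH hi ha hy hx M (P_HH hP hc2 hy hx M hM2)
    rw [EHH_swap hi hx hy M] at h1
    rw [h2] at h1
    -- the corners
    have h3 : EE φ l ((M ⧸ rx x M) ⧸ rx y (M ⧸ rx x M)) =
        EE φ l ((M ⧸ rx y M) ⧸ rx x (M ⧸ rx y M)) := by
      have key : ∀ (x y : Λ) (hx : ∀ l, x * l = l * x) (hy : ∀ l, y * l = l * y) (m : M),
          ((rx y (M ⧸ rx x M)).mkQ.comp (rx x M).mkQ) m = 0 ↔ ∃ a b : M, m = x • a + y • b := by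
        intro x y hx hy m
        rw [LinearMap.comp_apply, Submodule.mkQ_apply, Submodule.mkQ_apply,
          Submodule.Quotient.mk_eq_zero, mem_rx hy]
        constructor
        · rintro ⟨v, hv⟩
          obtain ⟨b, rfl⟩ := Submodule.Quotient.mk_surjective _ v
          rw [← Submodule.Quotient.mk_smul, Submodule.Quotient.eq, mem_rx hx] at hv
          obtain ⟨n, hn⟩ := hv
          refine ⟨-n, b, ?_⟩
          rw [smul_neg, hn]
          abel
        · rintro ⟨a, b, hm⟩
          refine ⟨Submodule.Quotient.mk b, ?_⟩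
          rw [← Submodule.Quotient.mk_smul, Submodule.Quotient.eq, mem_rx hx]
          refine ⟨-a, ?_⟩
          rw [smul_neg, hm]
          abel
      obtain ⟨e⟩ := exists_equiv_of_surj (Λ := Λ) (K := M)
        ((rx y (M ⧸ rx x M)).mkQ.comp (rx x M).mkQ)
        ((Submodule.mkQ_surjective _).comp (Submodule.mkQ_surjective _))
        ((rx x (M ⧸ rx y M)).mkQ.comp (rx y M).mkQ)
        ((Submodule.mkQ_surjective _).comp (Submodule.mkQ_surjective _)) (by
          intro m
          rw [key x y hx hy, key y x hy hx]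
          constructor
          · rintro ⟨a, b, hm⟩
            exact ⟨b, a, by rw [hm, add_comm]⟩
          · rintro ⟨a, b, hm⟩
            exact ⟨b, a, by rw [hm, add_comm]⟩)
      exact hi _ _ e
    have h4 : EE φ l (kx y (kx x M)) = EE φ l (kx x (kx y M)) := by
      obtain ⟨e⟩ := exists_equiv_of_inj (Λ := Λ) (K := M)
        ((kx x M).subtype.comp (kx y (kx x M)).subtype)
        (fun a b h => Subtype.ext (Subtype.ext h))
        ((kx y M).subtype.comp (kx x (kx y M)).subtype)
        (fun a b h => Subtype.ext (Subtype.ext h)) (by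
          intro m
          constructor
          · rintro ⟨⟨⟨a, ha⟩, ha'⟩, rfl⟩
            have h5 : y • a = 0 := congrArg Subtype.val ((mem_kx hy).1 ha')
            refine ⟨⟨⟨a, (mem_kx hy).2 h5⟩, ?_⟩, rfl⟩
            rw [mem_kx hx]
            exact Subtype.ext ((mem_kx hx).1 ha)
          · rintro ⟨⟨⟨a, ha⟩, ha'⟩, rfl⟩
            have h5 : x • a = 0 := congrArg Subtype.val ((mem_kx hx).1 ha')
            refine ⟨⟨⟨a, (mem_kx hx).2 h5⟩, ?_⟩, rfl⟩
            rw [mem_kx hy]
            exact Subtype.ext ((mem_kx hy).1 ha))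
      exact hi _ _ e
    show (EE φ l ((M ⧸ rx x M) ⧸ rx y (M ⧸ rx x M)) - EE φ l (kx y (M ⧸ rx x M))) -
        (EE φ l (kx x M ⧸ rx y (kx x M)) - EE φ l (kx y (kx x M))) =
      (EE φ l ((M ⧸ rx y M) ⧸ rx x (M ⧸ rx y M)) - EE φ l (kx x (M ⧸ rx y M))) -
        (EE φ l (kx y M ⧸ rx x (kx y M)) - EE φ l (kx x (kx y M)))
    rw [h3, h4]
    linear_combination h1

end Pool.Agent.V5helper17.CM
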