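import Pool.Agent.V5helper17.CM.HILB2

/-!
# Project CM (helper32), job HILB: Hilbert function and Euler characteristic
-/

namespace Pool.Agent.V5helper17.CM

open Pool.Agent.V5helper32.CM

theorem difs_cons (d : ℤ) (ds : List ℤ) (h : ℤ → ℤ) : difs (d :: ds) h = dif d (difs ds h) := rfl

theorem difs_sub (ds : List ℤ) (h k : ℤ → ℤ) :
    difs ds (fun j => h j - k j) = fun j => difs ds h j - difs ds k j := by
  induction ds with
  | nil => rfl
  | cons d ds ih =>
    rw [difs_cons, ih]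
    funext j
    rw [difs_cons, difs_cons]
    unfold dif
    ring

theorem difs_shift (ds : List ℤ) (d : ℤ) (h : ℤ → ℤ) :
    difs ds (fun j => h (j - d)) = fun j => difs ds h (j - d) := by
  induction ds with
  | nil => rfl
  | cons e ds ih =>
    rw [difs_cons, ih]
    funext j
    rw [difs_cons]
    unfold dif
    rw [sub_right_comm]

/-- One step for the iterated differences. -/
theorem difs_step (ds : List ℤ) (d : ℤ) (h a b : ℤ → ℤ)
    (hab : ∀ j, h j - h (j - d) = a j - b (j - d)) :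
    difs (d :: ds) h = fun j => difs ds a j - difs ds b (j - d) := by
  have h1 : difs (d :: ds) h = difs ds (fun j => h j - h (j - d)) := by
    rw [difs_sub ds h (fun j => h (j - d)), difs_shift, difs_cons]
    rfl
  have h2 : (fun j => h j - h (j - d)) = fun j => a j - b (j - d) := funext hab
  rw [h1, h2, difs_sub ds a (fun j => b (j - d)), difs_shift]

theorem finsum_step (d : ℤ) (a b : ℤ → ℤ) (ha : (Function.support a).Finite)
    (hb : (Function.support b).Finite) :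
    (Function.support fun j => a j - b (j - d)).Finite ∧
      (∑ᶠ j, (a j - b (j - d))) = (∑ᶠ j, a j) - ∑ᶠ j, b j := by
  have hb' : (Function.support fun j => b (j - d)).Finite := by
    have h1 : (Function.support fun j => b (j - d)) = (fun j => j - d) ⁻¹' Function.support b := rfl
    rw [h1]
    exact hb.preimage (fun x _ y _ h => by simpa using h)
  refine ⟨(ha.union hb').subset ?_, ?_⟩
  · intro j hj
    by_contra hcon
    rw [Set.mem_union, not_or, Function.notMem_support, Function.notMem_support] at hcon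
    apply hj
    show a j - b (j - d) = 0
    rw [hcon.1, hcon.2, sub_zero]
  · rw [finsum_sub_distrib ha hb']
    congr 1
    exact finsum_comp_equiv (Equiv.subRight d) (f := b)

theorem hilb_main (hFG : S_FG) (hPHI : S_PHI) (D : Type) [CommRing D] [Algebra ℂ D]
    (𝒟 : ℤ → Submodule ℂ D) [GradedAlgebra 𝒟] (p : D →ₐ[ℂ] ℂ)
    (hp0 : ∀ d, d ≠ 0 → ∀ x ∈ 𝒟 d, p x = 0) (fs : List D) (ds : List ℤ)
    (hfs : List.Forall₂ (fun f d => 0 < d ∧ f ∈ 𝒟 d) fs ds) :
    ∀ (M : Type) [AddCommGroup M] [Module ℂ M] [Module D M] [IsScalarTower ℂ D M]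
      (ℳ : ℤ → Submodule ℂ M), Gr ℳ →
      (∀ i j, ∀ x ∈ 𝒟 i, ∀ m ∈ ℳ j, x • m ∈ ℳ (i + j)) → FG fs M →
        (∀ j, FiniteDimensional ℂ (ℳ j)) ∧
        (Function.support (difs ds fun j => hp 𝒟 p (ℳ j))).Finite ∧
        ((∑ᶠ j, difs ds (fun j => hp 𝒟 p (ℳ j)) j : ℤ) : ℂ) =
          EE (phi (AlgHom.id ℂ D) p 1) fs M := by
  induction hfs with
  | nil =>
    intro M _ _ _ _ ℳ G hsm hM
    have hfd : FiniteDimensional ℂ M := (hFG D).1.nil M hM
    refine ⟨fun j => inferInstance, ?_⟩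
    exact hilb_nil G hsm hp0
  | cons h1 h2 ih =>
    rename_i f d fs ds
    intro M _ _ _ _ ℳ G hsm hM
    have hcen : ∀ xs : List D, CenL xs := fun xs x _ l => mul_comm x l
    obtain ⟨hk, hr⟩ := kill (hFG D).1 (hcen (f :: fs)) M hM
    obtain ⟨Gk⟩ := G.kx hsm h1.2
    obtain ⟨Gr'⟩ := G.rx hsm h1.2
    obtain ⟨k1, k2, k3⟩ := ih (kx f M) _ Gk (hsmk hsm f) hk
    obtain ⟨r1, r2, r3⟩ := ih (M ⧸ rx f M) _ Gr' (hsmr hsm f) hr
    have hpos : ∀ g ∈ f :: fs, ∃ d, 0 < d ∧ g ∈ 𝒟 d := by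
      have h3 : List.Forall₂ (fun f d => 0 < d ∧ f ∈ 𝒟 d) (f :: fs) (d :: ds) :=
        List.Forall₂.cons h1 h2
      intro g hg
      obtain ⟨i, hi, rfl⟩ := List.getElem_of_mem hg
      have h4 : i < (d :: ds).length := by
        rw [← h3.length_eq]
        exact hi
      exact ⟨(d :: ds)[i], h3.get hi h4⟩
    obtain ⟨j₀, hj₀⟩ := G.bounded hsm (f :: fs) hpos hM
    have hfd := fd_step G hsm h1.1 h1.2 hj₀ r1
    refine ⟨hfd, ?_⟩
    have hstep := fun j => hp_step hPHI G hsm h1.2 hfd p j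
    have h5 := difs_step ds d (fun j => hp 𝒟 p (ℳ j))
      (fun j => hp 𝒟 p ((ℳ j).map ((rx f M).mkQ.restrictScalars ℂ)))
      (fun j => hp 𝒟 p ((ℳ j).comap ((kx f M).subtype.restrictScalars ℂ))) hstep
    obtain ⟨h6, h7⟩ := finsum_step d _ _ r2 k2
    rw [h5]
    refine ⟨h6, ?_⟩
    rw [h7]
    rw [Int.cast_sub, r3, k3]
    rfl

theorem t_HILB (hFG : S_FG) (hPHI : S_PHI) : S_HILB := by
  intro D _ _ 𝒟 _ p hp0 M _ _ _ _ ℳ hint hsm fs ds hfs hM
  exact (hilb_main hFG hPHI D 𝒟 p hp0 fs ds hfs M ℳ (Gr.ofInternal hint) hsm hM).2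

end Pool.Agent.V5helper17.CM
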