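import Pool.Agent.V5helper17.CM.ESWAP

/-!
# Project CM (helper32), job HILB, part 1: graded modules described by projections
-/

namespace Pool.Agent.V5helper17.CM

open Pool.Agent.V5helper32.CM

/-- A grading of a complex vector space by projections. -/
structure Gr {M : Type} [AddCommGroup M] [Module ℂ M] (ℳ : ℤ → Submodule ℂ M) where
  π : ℤ → M →ₗ[ℂ] M
  mem : ∀ j m, π j m ∈ ℳ j
  same : ∀ j, ∀ m ∈ ℳ j, π j m = m
  diff : ∀ i j, i ≠ j → ∀ m ∈ ℳ j, π i m = 0
  fin : ∀ m, ∃ S : Finset ℤ, m = ∑ j ∈ S, π j m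

section

variable {M : Type} [AddCommGroup M] [Module ℂ M] {ℳ : ℤ → Submodule ℂ M}

/-- An internal grading is described by projections. -/
noncomputable def Gr.ofInternal (h : DirectSum.IsInternal ℳ) : Gr ℳ := by
  classical
  haveI := h.chooseDecomposition
  refine
    { π := fun j => (ℳ j).subtype.comp ((DirectSum.component ℂ ℤ (fun j => ℳ j) j).comp
        (DirectSum.decomposeLinearEquiv ℳ).toLinearMap)
      mem := fun j m => (DirectSum.decompose ℳ m j).2
      same := ?_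
      diff := ?_
      fin := ?_ }
  · intro j m hm
    exact DirectSum.decompose_of_mem_same ℳ hm
  · intro i j hij m hm
    exact DirectSum.decompose_of_mem_ne ℳ hm (Ne.symm hij)
  · intro m
    exact ⟨(DirectSum.decompose ℳ m).support, (DirectSum.sum_support_decompose ℳ m).symm⟩

theorem Gr.ext {N : Type} [AddCommGroup N] [Module ℂ N] (G : Gr ℳ) (f g : M →ₗ[ℂ] N)
    (h : ∀ j, ∀ m ∈ ℳ j, f m = g m) : f = g := by
  ext m
  obtain ⟨S, hS⟩ := G.fin m
  rw [hS, map_sum, map_sum]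
  exact Finset.sum_congr rfl fun j _ => h j _ (G.mem j m)

/-- The finite set may be enlarged. -/
theorem Gr.fin' (G : Gr ℳ) (m : M) : ∃ S : Finset ℤ, ∀ T : Finset ℤ, S ⊆ T →
    m = ∑ j ∈ T, G.π j m := by
  obtain ⟨S, hS⟩ := G.fin m
  refine ⟨S, fun T hT => ?_⟩
  have h1 : ∀ j, j ∉ S → G.π j m = 0 := by
    intro j hj
    rw [hS, map_sum]
    refine Finset.sum_eq_zero fun i hi => ?_
    exact G.diff j i (fun h => hj (h ▸ hi)) _ (G.mem i m)
  rw [← Finset.sum_subset hT (fun j _ hj => h1 j hj)]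
  exact hS

theorem Gr.eq_zero (G : Gr ℳ) {m : M} (h : ∀ j, G.π j m = 0) : m = 0 := by
  obtain ⟨S, hS⟩ := G.fin m
  rw [hS]
  exact Finset.sum_eq_zero fun j _ => h j

end

section

variable {D : Type} [CommRing D] [Algebra ℂ D] {M : Type} [AddCommGroup M] [Module ℂ M]
  [Module D M] [IsScalarTower ℂ D M] {𝒟 : ℤ → Submodule ℂ D} {ℳ : ℤ → Submodule ℂ M}

/-- Homogeneous elements shift the projections. -/
theorem Gr.smul (G : Gr ℳ) (hsm : ∀ i j, ∀ x ∈ 𝒟 i, ∀ m ∈ ℳ j, x • m ∈ ℳ (i + j)) {d : ℤ} {f : D}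
    (hf : f ∈ 𝒟 d) (j : ℤ) (m : M) : G.π j (f • m) = f • G.π (j - d) m := by
  have h := G.ext ((G.π j).comp (Algebra.lsmul ℂ ℂ M f)) ((Algebra.lsmul ℂ ℂ M f).comp (G.π (j - d)))
    (by
      intro i m hm
      show G.π j (f • m) = f • G.π (j - d) m
      by_cases hij : i = j - d
      · have h1 : f • m ∈ ℳ j := by
          have := hsm d i f hf m hm
          rw [hij] at this
          convert this using 2
          ring
        rw [G.same j _ h1]
        rw [hij] at hm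
        rw [G.same _ _ hm]
      · rw [G.diff j (d + i) (fun h => hij (by rw [h]; ring)) _ (hsm d i f hf m hm),
          G.diff (j - d) i (Ne.symm hij) m hm, smul_zero])
  exact LinearMap.congr_fun h m

/-- The kernel of a homogeneous element is graded. -/
theorem Gr.kx (G : Gr ℳ) (hsm : ∀ i j, ∀ x ∈ 𝒟 i, ∀ m ∈ ℳ j, x • m ∈ ℳ (i + j)) {d : ℤ} {f : D}
    (hf : f ∈ 𝒟 d) :
    Nonempty (Gr fun j => (ℳ j).comap ((Pool.Agent.V5helper32.CM.kx f M).subtype.restrictScalars ℂ)) := by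
  have hc : ∀ l, f * l = l * f := fun l => mul_comm f l
  have h1 : ∀ j, ∀ m : Pool.Agent.V5helper32.CM.kx f M,
      G.π j (m : M) ∈ Pool.Agent.V5helper32.CM.kx f M := by
    intro j m
    rw [mem_kx hc]
    have h2 := G.smul hsm hf (j + d) (m : M)
    rw [(mem_kx hc).1 m.2, map_zero, add_sub_cancel_right] at h2
    exact h2.symm
  refine ⟨{ π := fun j => ?_, mem := ?_, same := ?_, diff := ?_, fin := ?_ }⟩
  · exact
      { toFun := fun m => ⟨G.π j (m : M), h1 j m⟩
        map_add' := fun a b => Subtype.ext ((G.π j).map_add (a : M) (b : M))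
        map_smul' := fun c a => Subtype.ext ((G.π j).map_smul c (a : M)) }
  · intro j m
    exact G.mem j _
  · intro j m hm
    exact Subtype.ext (G.same j (m : M) hm)
  · intro i j hij m hm
    exact Subtype.ext (G.diff i j hij (m : M) hm)
  · intro m
    obtain ⟨S, hS⟩ := G.fin (m : M)
    refine ⟨S, Subtype.ext ?_⟩
    rw [AddSubmonoidClass.coe_finsetSum]
    exact hS

/-- The cokernel of a homogeneous element is graded. -/
theorem Gr.rx (G : Gr ℳ) (hsm : ∀ i j, ∀ x ∈ 𝒟 i, ∀ m ∈ ℳ j, x • m ∈ ℳ (i + j)) {d : ℤ} {f : D}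
    (hf : f ∈ 𝒟 d) :
    Nonempty (Gr fun j => (ℳ j).map ((Pool.Agent.V5helper32.CM.rx f M).mkQ.restrictScalars ℂ)) := by
  have hc : ∀ l, f * l = l * f := fun l => mul_comm f l
  let R : Submodule ℂ M := (Pool.Agent.V5helper32.CM.rx f M).restrictScalars ℂ
  have h1 : ∀ j, R ≤ R.comap (G.π j) := by
    intro j m hm
    obtain ⟨n, hn⟩ := (mem_rx hc).1 (show m ∈ Pool.Agent.V5helper32.CM.rx f M from hm)
    show G.π j m ∈ Pool.Agent.V5helper32.CM.rx f M
    rw [mem_rx hc]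
    exact ⟨G.π (j - d) n, by rw [← G.smul hsm hf j n, hn]⟩
  let PP : ℤ → (M ⧸ Pool.Agent.V5helper32.CM.rx f M) →ₗ[ℂ] (M ⧸ Pool.Agent.V5helper32.CM.rx f M) :=
    fun j => R.mapQ R (G.π j) (h1 j)
  have hPP : ∀ j (m : M), PP j (Submodule.Quotient.mk m) = Submodule.Quotient.mk (G.π j m) :=
    fun j m => rfl
  refine ⟨{ π := PP, mem := ?_, same := ?_, diff := ?_, fin := ?_ }⟩
  · intro j m
    obtain ⟨m, rfl⟩ := Submodule.Quotient.mk_surjective _ m
    exact ⟨G.π j m, G.mem j m, rfl⟩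
  · rintro j _ ⟨m, hm, rfl⟩
    show PP j (Submodule.Quotient.mk m) = _
    rw [hPP, G.same j m hm]
    rfl
  · rintro i j hij _ ⟨m, hm, rfl⟩
    show PP i (Submodule.Quotient.mk m) = _
    rw [hPP, G.diff i j hij m hm]
    rfl
  · intro m
    obtain ⟨m, rfl⟩ := Submodule.Quotient.mk_surjective _ m
    obtain ⟨S, hS⟩ := G.fin m
    refine ⟨S, ?_⟩
    have h2 : (Submodule.Quotient.mk m : M ⧸ Pool.Agent.V5helper32.CM.rx f M) =
        (Pool.Agent.V5helper32.CM.rx f M).mkQ (∑ j ∈ S, G.π j m) := congrArg _ hS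
    refine (h2.trans (map_sum _ _ _)).trans ?_
    exact Finset.sum_congr rfl fun j _ => (hPP j m).symm

end

/-- A graded module which is finitely generated over elements of positive degree is bounded
below. -/
theorem Gr.bounded {D : Type} [CommRing D] [Algebra ℂ D] {M : Type} [AddCommGroup M] [Module ℂ M]
    [Module D M] [IsScalarTower ℂ D M] {𝒟 : ℤ → Submodule ℂ D} {ℳ : ℤ → Submodule ℂ M}
    (G : Gr ℳ) (hsm : ∀ i j, ∀ x ∈ 𝒟 i, ∀ m ∈ ℳ j, x • m ∈ ℳ (i + j)) (fs : List D)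
    (hfs : ∀ f ∈ fs, ∃ d, 0 < d ∧ f ∈ 𝒟 d) (hFG : FG fs M) : ∃ j₀ : ℤ, ∀ j < j₀, ℳ j = ⊥ := by
  classical
  obtain ⟨s, hs⟩ := hFG
  have h1 : ∀ v : M, ∃ j₀ : ℤ, ∀ j < j₀, G.π j v = 0 := by
    intro v
    obtain ⟨S, hS⟩ := G.fin v
    obtain ⟨b, hb⟩ := S.bddBelow
    refine ⟨b, fun j hj => ?_⟩
    rw [hS, map_sum]
    refine Finset.sum_eq_zero fun i hi => ?_
    refine G.diff j i (fun h => ?_) _ (G.mem i v)
    have := hb (Finset.mem_coe.2 hi)
    omega
  choose b hb using h1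
  obtain ⟨j₀, hj₀⟩ := (s.image b).bddBelow
  refine ⟨j₀, fun j hj => ?_⟩
  have h2 := hs
    { carrier := {m | ∀ j < j₀, G.π j m = 0}
      add_mem' := by
        intro a c ha hc j hj
        rw [map_add, ha j hj, hc j hj, add_zero]
      zero_mem' := fun j _ => map_zero _
      smul_mem' := by
        intro c m hm j hj
        rw [map_smul, hm j hj, smul_zero] } (by
      intro v hv j hj
      refine hb v j (lt_of_lt_of_le hj ?_)
      exact hj₀ (Finset.mem_coe.2 (Finset.mem_image_of_mem b hv))) (by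
      intro f hf m hm j hj
      obtain ⟨d, hd, hfd⟩ := hfs f hf
      rw [G.smul hsm hfd, hm (j - d) (by omega), smul_zero])
  rw [Submodule.eq_bot_iff]
  intro m hm
  have h3 : m ∈ (⊤ : Submodule ℂ M) := Submodule.mem_top
  rw [← h2] at h3
  rw [← G.same j m hm]
  exact h3 j hj

end Pool.Agent.V5helper17.CM
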