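import Pool.Agent.V5helper17.CM.HILB0

/-!
# Project CM (helper32), job HILB, part 2: one step for the Hilbert function
-/

namespace Pool.Agent.V5helper17.CM

open Pool.Agent.V5helper32.CM

/-- The trace of the identity is the dimension. -/
theorem phi_one {Λ : Type} [CommRing Λ] [Algebra ℂ Λ] (p : Λ →ₐ[ℂ] ℂ) (V : Type) [AddCommGroup V]
    [Module ℂ V] [Module Λ V] [IsScalarTower ℂ Λ V] [FiniteDimensional ℂ V] :
    phi (AlgHom.id ℂ Λ) p 1 V = (Module.finrank ℂ (gsp (AlgHom.id ℂ Λ) p V) : ℂ) := by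
  have h : ∀ m ∈ gsp (AlgHom.id ℂ Λ) p V,
      Algebra.lsmul ℂ ℂ V (1 : Λ) m ∈ gsp (AlgHom.id ℂ Λ) p V := by
    intro m hm
    rw [map_one]
    exact hm
  unfold phi
  rw [dif_pos h]
  have h2 : (Algebra.lsmul ℂ ℂ V (1 : Λ)).restrict h = LinearMap.id := by
    ext m
    show ((1 : Λ) • (m : V)) = m
    rw [one_smul]
  rw [h2, LinearMap.trace_id]

/-- The trivial skew algebra. -/
def skewTriv (Z : Type) [CommRing Z] [Algebra ℂ Z] : Skew Z AlgEquiv.refl Z where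
  ι := AlgHom.id ℂ Z
  t := 1
  n := 1
  npos := one_pos
  tn := one_pow 1
  τn := fun z => by rw [pow_one]; rfl
  comm := fun z => by rw [one_mul, mul_one]; rfl
  gen := fun l => ⟨fun _ => l, by simp⟩

theorem phi_triv (hPHI : S_PHI) (Z : Type) [CommRing Z] [Algebra ℂ Z] (p : Z →ₐ[ℂ] ℂ) :
    IsoFn (phi (AlgHom.id ℂ Z) p 1) ∧ AddFn (phi (AlgHom.id ℂ Z) p 1) := by
  have h := hPHI.1 Z AlgEquiv.refl Z (skewTriv Z) p (fun z => rfl)
  exact ⟨h.1, h.2.1⟩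

section

variable {D : Type} [CommRing D] [Algebra ℂ D]

/-- The subalgebra of the elements of degree zero. -/
def A0 (𝒟 : ℤ → Submodule ℂ D) [GradedAlgebra 𝒟] : Subalgebra ℂ D where
  carrier := 𝒟 0
  mul_mem' := by
    intro a b ha hb
    have h := SetLike.mul_mem_graded ha hb
    rwa [add_zero] at h
  one_mem' := SetLike.one_mem_graded 𝒟
  add_mem' := fun ha hb => (𝒟 0).add_mem ha hb
  zero_mem' := (𝒟 0).zero_mem
  algebraMap_mem' := by
    intro r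
    exact SetLike.algebraMap_mem_graded 𝒟 r

/-- The restriction of a character. -/
def p0 (𝒟 : ℤ → Submodule ℂ D) [GradedAlgebra 𝒟] (p : D →ₐ[ℂ] ℂ) : A0 𝒟 →ₐ[ℂ] ℂ :=
  p.comp (A0 𝒟).val

variable {M : Type} [AddCommGroup M] [Module ℂ M] [Module D M] [IsScalarTower ℂ D M]
  {𝒟 : ℤ → Submodule ℂ D} [GradedAlgebra 𝒟] {ℳ : ℤ → Submodule ℂ M}

/-- A homogeneous part as a module over the elements of degree zero. -/
def pc (hsm : ∀ i j, ∀ x ∈ 𝒟 i, ∀ m ∈ ℳ j, x • m ∈ ℳ (i + j)) (j : ℤ) :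
    Submodule (A0 𝒟) M where
  carrier := ℳ j
  add_mem' := fun ha hb => (ℳ j).add_mem ha hb
  zero_mem' := (ℳ j).zero_mem
  smul_mem' := by
    intro c m hm
    have h := hsm 0 j (c : D) c.2 m hm
    rwa [zero_add] at h

theorem mem_pc (hsm : ∀ i j, ∀ x ∈ 𝒟 i, ∀ m ∈ ℳ j, x • m ∈ ℳ (i + j)) (j : ℤ) (m : M) :
    m ∈ pc hsm j ↔ m ∈ ℳ j := Iff.rfl

theorem fd_pc (hsm : ∀ i j, ∀ x ∈ 𝒟 i, ∀ m ∈ ℳ j, x • m ∈ ℳ (i + j)) (j : ℤ)
    [h : FiniteDimensional ℂ (ℳ j)] : FiniteDimensional ℂ (pc hsm j) := by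
  let e : ℳ j →ₗ[ℂ] pc hsm j :=
    { toFun := fun m => ⟨m, m.2⟩
      map_add' := fun a b => rfl
      map_smul' := fun c a => rfl }
  exact Module.Finite.of_surjective e (by
    rintro ⟨m, hm⟩
    exact ⟨⟨m, hm⟩, rfl⟩)

theorem hp_eq (hsm : ∀ i j, ∀ x ∈ 𝒟 i, ∀ m ∈ ℳ j, x • m ∈ ℳ (i + j)) (p : D →ₐ[ℂ] ℂ) (j : ℤ)
    [FiniteDimensional ℂ (ℳ j)] :
    ((hp 𝒟 p (ℳ j) : ℤ) : ℂ) = phi (AlgHom.id ℂ (A0 𝒟)) (p0 𝒟 p) 1 (pc hsm j) := by
  haveI := fd_pc hsm j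
  rw [phi_one]
  unfold hp
  rw [Int.cast_natCast]
  congr 1
  -- the span is the set itself
  have hset : ∀ m : M, m ∈ Submodule.span ℂ
      {m : M | m ∈ ℳ j ∧ ∀ z ∈ 𝒟 0, ∃ N : ℕ, (z - algebraMap ℂ D (p z)) ^ N • m = 0} ↔
      ∃ h : m ∈ ℳ j, (⟨m, h⟩ : pc hsm j) ∈ gsp (AlgHom.id ℂ (A0 𝒟)) (p0 𝒟 p) (pc hsm j) := by
    have hiff : ∀ m : M, ∀ h : m ∈ ℳ j,
        ((⟨m, h⟩ : pc hsm j) ∈ gsp (AlgHom.id ℂ (A0 𝒟)) (p0 𝒟 p) (pc hsm j)) ↔
        ∀ z ∈ 𝒟 0, ∃ N : ℕ, (z - algebraMap ℂ D (p z)) ^ N • m = 0 := by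
      intro m h
      constructor
      · intro h1 z hz
        obtain ⟨N, hN⟩ := h1 ⟨z, hz⟩
        exact ⟨N, congrArg Subtype.val hN⟩
      · intro h1 z
        obtain ⟨N, hN⟩ := h1 z z.2
        exact ⟨N, Subtype.ext hN⟩
    intro m
    constructor
    · intro hm
      induction hm using Submodule.span_induction with
      | mem v hv => exact ⟨hv.1, (hiff v hv.1).2 hv.2⟩
      | zero => exact ⟨(ℳ j).zero_mem, Submodule.zero_mem _⟩
      | add v w _ _ hv hw =>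
        obtain ⟨h1, h2⟩ := hv
        obtain ⟨h3, h4⟩ := hw
        exact ⟨(ℳ j).add_mem h1 h3, Submodule.add_mem _ h2 h4⟩
      | smul c v _ hv =>
        obtain ⟨h1, h2⟩ := hv
        exact ⟨(ℳ j).smul_mem c h1, Submodule.smul_mem _ c h2⟩
    · rintro ⟨h1, h2⟩
      exact Submodule.subset_span ⟨h1, (hiff m h1).1 h2⟩
  refine LinearEquiv.finrank_eq ?_
  exact
    { toFun := fun m => ⟨⟨m, ((hset m).1 m.2).choose⟩, ((hset m).1 m.2).choose_spec⟩
      invFun := fun m => ⟨(m : pc hsm j), (hset _).2 ⟨(m : pc hsm j).2, m.2⟩⟩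
      map_add' := fun a b => rfl
      map_smul' := fun c a => rfl
      left_inv := fun a => rfl
      right_inv := fun a => rfl }

theorem hsmk (hsm : ∀ i j, ∀ x ∈ 𝒟 i, ∀ m ∈ ℳ j, x • m ∈ ℳ (i + j)) (f : D) :
    ∀ i j, ∀ x ∈ 𝒟 i, ∀ m ∈ (ℳ j).comap ((kx f M).subtype.restrictScalars ℂ),
      x • m ∈ (ℳ (i + j)).comap ((kx f M).subtype.restrictScalars ℂ) :=
  fun i j x hx m hm => hsm i j x hx (m : M) hm

theorem hsmr (hsm : ∀ i j, ∀ x ∈ 𝒟 i, ∀ m ∈ ℳ j, x • m ∈ ℳ (i + j)) (f : D) :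
    ∀ i j, ∀ x ∈ 𝒟 i, ∀ m ∈ (ℳ j).map ((rx f M).mkQ.restrictScalars ℂ),
      x • m ∈ (ℳ (i + j)).map ((rx f M).mkQ.restrictScalars ℂ) := by
  rintro i j x hx _ ⟨m, hm, rfl⟩
  exact ⟨x • m, hsm i j x hx m hm, rfl⟩

theorem fd_comap (f : D) (j : ℤ) [FiniteDimensional ℂ (ℳ j)] :
    FiniteDimensional ℂ ((ℳ j).comap ((kx f M).subtype.restrictScalars ℂ)) := by
  let e : (ℳ j).comap ((kx f M).subtype.restrictScalars ℂ) →ₗ[ℂ] ℳ j :=
    { toFun := fun m => ⟨((m : kx f M) : M), m.2⟩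
      map_add' := fun a b => rfl
      map_smul' := fun c a => rfl }
  refine Module.Finite.of_injective e ?_
  intro a b h
  have h2 := congrArg Subtype.val h
  have h3 : ((a : kx f M) : M) = ((b : kx f M) : M) := h2
  exact Subtype.ext (Subtype.ext h3)

theorem fd_map (f : D) (j : ℤ) [FiniteDimensional ℂ (ℳ j)] :
    FiniteDimensional ℂ ((ℳ j).map ((rx f M).mkQ.restrictScalars ℂ)) := by
  infer_instance

theorem hp_step (hPHI : S_PHI) (G : Gr ℳ)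
    (hsm : ∀ i j, ∀ x ∈ 𝒟 i, ∀ m ∈ ℳ j, x • m ∈ ℳ (i + j)) {d : ℤ} {f : D} (hf : f ∈ 𝒟 d)
    (hfd : ∀ j, FiniteDimensional ℂ (ℳ j)) (p : D →ₐ[ℂ] ℂ) (j : ℤ) :
    hp 𝒟 p (ℳ j) - hp 𝒟 p (ℳ (j - d)) = hp 𝒟 p ((ℳ j).map ((rx f M).mkQ.restrictScalars ℂ)) -
      hp 𝒟 p ((ℳ (j - d)).comap ((kx f M).subtype.restrictScalars ℂ)) := by
  have hc : ∀ l, f * l = l * f := fun l => mul_comm f l
  obtain ⟨hi, ha⟩ := phi_triv hPHI (A0 𝒟) (p0 𝒟 p)
  have hfd1 := hfd j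
  have hfd2 := hfd (j - d)
  have hfd3 := fd_pc hsm j
  have hfd4 := fd_pc hsm (j - d)
  have hfd5 : FiniteDimensional ℂ ((ℳ (j - d)).comap ((kx f M).subtype.restrictScalars ℂ)) :=
    fd_comap f (j - d)
  have hfd6 : FiniteDimensional ℂ ((ℳ j).map ((rx f M).mkQ.restrictScalars ℂ)) := fd_map f j
  have h1 := hp_eq hsm p j
  have h2 := hp_eq hsm p (j - d)
  have h3 := hp_eq (hsmk hsm f) p (j - d)
  have h4 := hp_eq (hsmr hsm f) p j
  let mf : pc hsm (j - d) →ₗ[A0 𝒟] pc hsm j :=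
    { toFun := fun m => ⟨f • (m : M), by
        have h := hsm d (j - d) f hf (m : M) m.2
        rwa [add_sub_cancel] at h⟩
      map_add' := fun a b => Subtype.ext (smul_add f (a : M) (b : M))
      map_smul' := fun c a => Subtype.ext (by
        show f • (c : D) • (a : M) = (c : D) • f • (a : M)
        rw [smul_smul, smul_smul, mul_comm]) }
  have hmf : ∀ m, ((mf m : pc hsm j) : M) = f • (m : M) := fun m => rfl
  have e1 : phi (AlgHom.id ℂ (A0 𝒟)) (p0 𝒟 p) 1 (LinearMap.ker mf) =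
      phi (AlgHom.id ℂ (A0 𝒟)) (p0 𝒟 p) 1 (pc (hsmk hsm f) (j - d)) := by
    let i1 : LinearMap.ker mf →ₗ[A0 𝒟] M :=
      (pc hsm (j - d)).subtype.comp (LinearMap.ker mf).subtype
    let i2 : pc (hsmk hsm f) (j - d) →ₗ[A0 𝒟] M :=
      { toFun := fun v => ((v : kx f M) : M)
        map_add' := fun a b => rfl
        map_smul' := fun c a => rfl }
    have hi1 : Function.Injective i1 := by
      intro a b h
      have h' : ((a : pc hsm (j - d)) : M) = ((b : pc hsm (j - d)) : M) := h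
      exact Subtype.ext (Subtype.ext h')
    have hi2 : Function.Injective i2 := by
      intro a b h
      have h' : ((a : kx f M) : M) = ((b : kx f M) : M) := h
      exact Subtype.ext (Subtype.ext h')
    have hi3 : ∀ k, (∃ a, i1 a = k) ↔ ∃ b, i2 b = k := by
      intro m
      constructor
      · rintro ⟨⟨⟨a, ha⟩, ha'⟩, rfl⟩
        have h5 : f • a = 0 := congrArg Subtype.val ha'
        exact ⟨⟨⟨a, (mem_kx hc).2 h5⟩, ha⟩, rfl⟩
      · rintro ⟨⟨⟨a, ha⟩, ha'⟩, rfl⟩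
        refine ⟨⟨⟨a, ha'⟩, ?_⟩, rfl⟩
        rw [LinearMap.mem_ker]
        exact Subtype.ext ((mem_kx hc).1 ha)
    obtain ⟨e⟩ := exists_equiv_of_inj (Λ := A0 𝒟) (K := M) (A := LinearMap.ker mf)
      (B := pc (hsmk hsm f) (j - d)) i1 hi1 i2 hi2 hi3
    exact hi _ _ e
  have e2 : phi (AlgHom.id ℂ (A0 𝒟)) (p0 𝒟 p) 1 (pc hsm j ⧸ LinearMap.range mf) =
      phi (AlgHom.id ℂ (A0 𝒟)) (p0 𝒟 p) 1 (pc (hsmr hsm f) j) := by
    obtain ⟨e⟩ := exists_equiv_of_surj (Λ := A0 𝒟) (K := pc hsm j)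
      (LinearMap.range mf).mkQ (Submodule.mkQ_surjective _)
      ({ toFun := fun v : pc hsm j => (⟨Submodule.Quotient.mk (v : M), ⟨(v : M), v.2, rfl⟩⟩ :
            pc (hsmr hsm f) j)
         map_add' := fun a b => rfl
         map_smul' := fun c a => rfl } : pc hsm j →ₗ[A0 𝒟] pc (hsmr hsm f) j)
      (by
        rintro ⟨_, ⟨m, hm, rfl⟩⟩
        exact ⟨⟨m, hm⟩, rfl⟩) (by
        rintro ⟨m, hm⟩
        rw [Submodule.mkQ_apply, Submodule.Quotient.mk_eq_zero, LinearMap.mem_range,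
          ← Subtype.coe_inj]
        show _ ↔ (Submodule.Quotient.mk m : M ⧸ rx f M) = 0
        rw [Submodule.Quotient.mk_eq_zero, mem_rx hc]
        constructor
        · rintro ⟨n, hn⟩
          exact ⟨n, congrArg Subtype.val hn⟩
        · rintro ⟨n, hn⟩
          refine ⟨⟨G.π (j - d) n, G.mem _ _⟩, Subtype.ext ?_⟩
          rw [hmf]
          show f • G.π (j - d) n = m
          rw [← G.smul hsm hf j n, hn]
          exact G.same j m hm)
    exact hi _ _ e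
  have e3 : phi (AlgHom.id ℂ (A0 𝒟)) (p0 𝒟 p) 1 (pc hsm (j - d) ⧸ LinearMap.ker mf) =
      phi (AlgHom.id ℂ (A0 𝒟)) (p0 𝒟 p) 1 (LinearMap.range mf) := hi _ _ mf.quotKerEquivRange
  have a1 := ha (pc hsm (j - d)) (LinearMap.ker mf)
  have a2 := ha (pc hsm j) (LinearMap.range mf)
  rw [e1, e3, ← h3, ← h2] at a1
  rw [e2, ← h4, ← h1] at a2
  have : ((hp 𝒟 p (ℳ j) - hp 𝒟 p (ℳ (j - d)) : ℤ) : ℂ) =
      ((hp 𝒟 p ((ℳ j).map ((rx f M).mkQ.restrictScalars ℂ)) -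
      hp 𝒟 p ((ℳ (j - d)).comap ((kx f M).subtype.restrictScalars ℂ)) : ℤ) : ℂ) := by
    rw [Int.cast_sub, Int.cast_sub, a1, a2]
    ring
  exact_mod_cast this

/-- Finite dimension of the homogeneous parts. -/
theorem fd_step (G : Gr ℳ) (hsm : ∀ i j, ∀ x ∈ 𝒟 i, ∀ m ∈ ℳ j, x • m ∈ ℳ (i + j)) {d : ℤ} {f : D}
    (hd : 0 < d) (hf : f ∈ 𝒟 d) {j₀ : ℤ} (hj₀ : ∀ j < j₀, ℳ j = ⊥)
    (hfd : ∀ j, FiniteDimensional ℂ ((ℳ j).map ((rx f M).mkQ.restrictScalars ℂ))) :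
    ∀ j, FiniteDimensional ℂ (ℳ j) := by
  have hc : ∀ l, f * l = l * f := fun l => mul_comm f l
  have h1 : ∀ n : ℕ, ∀ j : ℤ, j < j₀ + n → FiniteDimensional ℂ (ℳ j) := by
    intro n
    induction n with
    | zero =>
      intro j hj
      rw [hj₀ j (by simpa using hj)]
      infer_instance
    | succ n ih =>
      intro j hj
      have h2 : FiniteDimensional ℂ (ℳ (j - d)) := ih (j - d) (by push_cast at hj; omega)
      have h3 := hfd j
      let g : ℳ j →ₗ[ℂ] (M ⧸ rx f M) := ((rx f M).mkQ.restrictScalars ℂ).comp (ℳ j).subtype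
      have h4 : LinearMap.range g = (ℳ j).map ((rx f M).mkQ.restrictScalars ℂ) := by
        rw [LinearMap.range_comp, Submodule.range_subtype]
      have h5 : FiniteDimensional ℂ (LinearMap.range g) := by
        rw [h4]
        exact h3
      have h6 : FiniteDimensional ℂ (LinearMap.ker g) := by
        let e : ℳ (j - d) →ₗ[ℂ] M := (Algebra.lsmul ℂ ℂ M f).comp (ℳ (j - d)).subtype
        have h7 : FiniteDimensional ℂ (LinearMap.range e) := inferInstance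
        have h8 : (LinearMap.ker g).map (ℳ j).subtype ≤ LinearMap.range e := by
          rintro _ ⟨⟨m, hm⟩, hm', rfl⟩
          have h9 : (Submodule.Quotient.mk m : M ⧸ rx f M) = 0 := hm'
          rw [Submodule.Quotient.mk_eq_zero, mem_rx hc] at h9
          obtain ⟨n, hn⟩ := h9
          refine ⟨⟨G.π (j - d) n, G.mem _ _⟩, ?_⟩
          show f • G.π (j - d) n = m
          rw [← G.smul hsm hf j n, hn]
          exact G.same j m hm
        have h9 : FiniteDimensional ℂ ((LinearMap.ker g).map (ℳ j).subtype) :=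
          Submodule.finiteDimensional_of_le h8
        exact Module.Finite.equiv (Submodule.equivSubtypeMap _ _).symm
      have h7 : FiniteDimensional ℂ (ℳ j ⧸ LinearMap.ker g) :=
        Module.Finite.equiv g.quotKerEquivRange.symm
      exact Module.Finite.of_submodule_quotient (LinearMap.ker g)
  intro j
  refine h1 (j - j₀ + 1).toNat j ?_
  have := Int.self_le_toNat (j - j₀ + 1)
  omega

end

end Pool.Agent.V5helper17.CM
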