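import Pool.Agent.V5helper17.CM.HILB1

/-!
# Project CM (helper32), job HILB, part 3: modules of finite dimension
-/

namespace Pool.Agent.V5helper17.CM

open Pool.Agent.V5helper32.CM

section

variable {D : Type} [CommRing D] [Algebra ℂ D] {M : Type} [AddCommGroup M] [Module ℂ M]
  [Module D M] [IsScalarTower ℂ D M]

theorem mem_hpspan (𝒟 : ℤ → Submodule ℂ D) (p : D →ₐ[ℂ] ℂ) (U : Submodule ℂ M) (m : M) :
    m ∈ Submodule.span ℂ
      {m : M | m ∈ U ∧ ∀ z ∈ 𝒟 0, ∃ N : ℕ, (z - algebraMap ℂ D (p z)) ^ N • m = 0} ↔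
      m ∈ U ∧ ∀ z ∈ 𝒟 0, ∃ N : ℕ, (z - algebraMap ℂ D (p z)) ^ N • m = 0 := by
  constructor
  · intro hm
    induction hm using Submodule.span_induction with
    | mem v hv => exact hv
    | zero => exact ⟨U.zero_mem, fun z _ => ⟨0, smul_zero _⟩⟩
    | add v w _ _ hv hw =>
      refine ⟨U.add_mem hv.1 hw.1, fun z hz => ?_⟩
      obtain ⟨a, ha⟩ := hv.2 z hz
      obtain ⟨b, hb⟩ := hw.2 z hz
      refine ⟨a + b, ?_⟩
      have h1 : (z - algebraMap ℂ D (p z)) ^ (a + b) • v = 0 := by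
        rw [add_comm, pow_add, mul_smul, ha, smul_zero]
      have h2 : (z - algebraMap ℂ D (p z)) ^ (a + b) • w = 0 := by
        rw [pow_add, mul_smul, hb, smul_zero]
      rw [smul_add, h1, h2, add_zero]
    | smul c v _ hv =>
      refine ⟨U.smul_mem c hv.1, fun z hz => ?_⟩
      obtain ⟨a, ha⟩ := hv.2 z hz
      exact ⟨a, by rw [smul_comm, ha, smul_zero]⟩
  · intro h
    exact Submodule.subset_span h

/-- The elements which act nilpotently on a vector form an ideal. -/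
theorem exists_pow_sum {ι : Type} (m : M) (S : Finset ι) (a : ι → D)
    (h : ∀ i ∈ S, ∃ N : ℕ, a i ^ N • m = 0) : ∃ N : ℕ, (∑ i ∈ S, a i) ^ N • m = 0 := by
  let I : Ideal D := LinearMap.ker (LinearMap.toSpanSingleton D M m)
  have h1 : ∀ b : D, b ∈ I.radical ↔ ∃ N : ℕ, b ^ N • m = 0 := fun b => Iff.rfl
  rw [← h1]
  exact Ideal.sum_mem _ fun i hi => (h1 _).2 (h i hi)

variable {𝒟 : ℤ → Submodule ℂ D} [GradedAlgebra 𝒟] {ℳ : ℤ → Submodule ℂ M}

theorem pow_smul_mem (hsm : ∀ i j, ∀ x ∈ 𝒟 i, ∀ m ∈ ℳ j, x • m ∈ ℳ (i + j)) {i j : ℤ} {x : D}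
    (hx : x ∈ 𝒟 i) {m : M} (hm : m ∈ ℳ j) (k : ℕ) : x ^ k • m ∈ ℳ (k * i + j) := by
  induction k with
  | zero => simpa using hm
  | succ k ih =>
    have h := hsm i _ x hx _ ih
    rw [smul_smul, ← pow_succ'] at h
    convert h using 2
    push_cast
    ring

theorem gsp_of_hp (hsm : ∀ i j, ∀ x ∈ 𝒟 i, ∀ m ∈ ℳ j, x • m ∈ ℳ (i + j)) {p : D →ₐ[ℂ] ℂ}
    (hp0 : ∀ d, d ≠ 0 → ∀ x ∈ 𝒟 d, p x = 0) {T : Finset ℤ} (hT : ∀ j, j ∉ T → ℳ j = ⊥) {j : ℤ}
    {m : M} (hm : m ∈ ℳ j) (hz : ∀ z ∈ 𝒟 0, ∃ N : ℕ, (z - algebraMap ℂ D (p z)) ^ N • m = 0) :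
    m ∈ gsp (AlgHom.id ℂ D) p M := by
  classical
  intro z
  show ∃ N : ℕ, (z - algebraMap ℂ D (p z)) ^ N • m = 0
  have h1 : z - algebraMap ℂ D (p z) = ∑ i ∈ (DirectSum.decompose 𝒟 z).support,
      ((DirectSum.decompose 𝒟 z i : D) - algebraMap ℂ D (p (DirectSum.decompose 𝒟 z i : D))) := by
    rw [Finset.sum_sub_distrib, ← map_sum, ← map_sum, DirectSum.sum_support_decompose]
  rw [h1]
  refine exists_pow_sum m _ _ fun i _ => ?_
  by_cases hi : i = 0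
  · subst hi
    exact hz _ (DirectSum.decompose 𝒟 z 0).2
  · rw [hp0 i hi _ (DirectSum.decompose 𝒟 z i).2, map_zero, sub_zero]
    have h2 : ∃ k : ℕ, (k : ℤ) * i + j ∉ T := by
      by_contra hcon
      push Not at hcon
      have h3 : Function.Injective fun k : ℕ => (k : ℤ) * i + j := by
        intro a b hab
        have h4 : (a : ℤ) * i = b * i := by
          have : (a : ℤ) * i + j = b * i + j := hab
          linarith
        exact_mod_cast mul_right_cancel₀ hi h4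
      have h4 := Set.infinite_range_of_injective h3
      refine h4 (Set.Finite.subset T.finite_toSet ?_)
      rintro _ ⟨k, rfl⟩
      exact Finset.mem_coe.2 (hcon k)
    obtain ⟨k, hk⟩ := h2
    refine ⟨k, ?_⟩
    have h3 := pow_smul_mem hsm (DirectSum.decompose 𝒟 z i).2 hm k
    rw [hT _ hk, Submodule.mem_bot] at h3
    exact h3

theorem hp_of_gsp (G : Gr ℳ) (hsm : ∀ i j, ∀ x ∈ 𝒟 i, ∀ m ∈ ℳ j, x • m ∈ ℳ (i + j))
    {p : D →ₐ[ℂ] ℂ} (j : ℤ) {m : M} (hm : m ∈ gsp (AlgHom.id ℂ D) p M) :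
    ∀ z ∈ 𝒟 0, ∃ N : ℕ, (z - algebraMap ℂ D (p z)) ^ N • G.π j m = 0 := by
  intro z hz
  obtain ⟨N, hN⟩ := hm z
  refine ⟨N, ?_⟩
  have h1 : (z - algebraMap ℂ D (p z)) ^ N ∈ 𝒟 0 := by
    have h2 : z - algebraMap ℂ D (p z) ∈ A0 𝒟 :=
      (A0 𝒟).sub_mem hz ((A0 𝒟).algebraMap_mem (p z))
    exact (A0 𝒟).pow_mem h2 N
  have h2 := G.smul hsm h1 j m
  rw [sub_zero] at h2
  rw [← h2]
  have h3 : (z - algebraMap ℂ D (p z)) ^ N • m = 0 := hN
  rw [h3, map_zero]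

theorem hilb_nil (G : Gr ℳ) (hsm : ∀ i j, ∀ x ∈ 𝒟 i, ∀ m ∈ ℳ j, x • m ∈ ℳ (i + j))
    {p : D →ₐ[ℂ] ℂ} (hp0 : ∀ d, d ≠ 0 → ∀ x ∈ 𝒟 d, p x = 0) [FiniteDimensional ℂ M] :
    (Function.support fun j => hp 𝒟 p (ℳ j)).Finite ∧
      ((∑ᶠ j, hp 𝒟 p (ℳ j) : ℤ) : ℂ) = phi (AlgHom.id ℂ D) p 1 M := by
  classical
  -- the finite set of degrees
  obtain ⟨T, hT⟩ : ∃ T : Finset ℤ, ∀ j, j ∉ T → ℳ j = ⊥ := by
    obtain ⟨s, hs⟩ := Module.finite_def.1 (inferInstance : Module.Finite ℂ M)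
    have h1 : ∀ v : M, ∃ S : Finset ℤ, ∀ j, j ∉ S → G.π j v = 0 := by
      intro v
      obtain ⟨S, hS⟩ := G.fin v
      refine ⟨S, fun j hj => ?_⟩
      rw [hS, map_sum]
      exact Finset.sum_eq_zero fun i hi => G.diff j i (fun h => hj (h ▸ hi)) _ (G.mem i v)
    choose S hS using h1
    refine ⟨s.biUnion S, fun j hj => ?_⟩
    have h2 : (⊤ : Submodule ℂ M) ≤ LinearMap.ker (G.π j) := by
      rw [← hs, Submodule.span_le]
      intro v hv
      refine hS v j fun h => hj ?_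
      exact Finset.mem_biUnion.2 ⟨v, hv, h⟩
    rw [Submodule.eq_bot_iff]
    intro m hm
    rw [← G.same j m hm]
    exact h2 Submodule.mem_top
  have hbot : ∀ j, j ∉ T → hp 𝒟 p (ℳ j) = 0 := by
    intro j hj
    unfold hp
    have h1 : Submodule.span ℂ {m : M | m ∈ ℳ j ∧
        ∀ z ∈ 𝒟 0, ∃ N : ℕ, (z - algebraMap ℂ D (p z)) ^ N • m = 0} = ⊥ := by
      rw [Submodule.eq_bot_iff]
      intro m hm
      have h2 := ((mem_hpspan 𝒟 p (ℳ j) m).1 hm).1
      rwa [hT j hj, Submodule.mem_bot] at h2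
    rw [h1, finrank_bot]
    rfl
  have hsupp : (Function.support fun j => hp 𝒟 p (ℳ j)) ⊆ (T : Set ℤ) := by
    intro j hj
    by_contra h
    exact hj (hbot j fun h' => h (Finset.mem_coe.2 h'))
  refine ⟨T.finite_toSet.subset hsupp, ?_⟩
  rw [finsum_eq_sum_of_support_subset _ hsupp, phi_one]
  have key : (∑ j ∈ T, hp 𝒟 p (ℳ j)) = (Module.finrank ℂ (gsp (AlgHom.id ℂ D) p M) : ℤ) := by
    let U : ℤ → Submodule ℂ M := fun j => Submodule.span ℂ {m : M | m ∈ ℳ j ∧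
        ∀ z ∈ 𝒟 0, ∃ N : ℕ, (z - algebraMap ℂ D (p z)) ^ N • m = 0}
    have hU : ∀ j m, m ∈ U j ↔ m ∈ ℳ j ∧
        ∀ z ∈ 𝒟 0, ∃ N : ℕ, (z - algebraMap ℂ D (p z)) ^ N • m = 0 :=
      fun j m => mem_hpspan 𝒟 p (ℳ j) m
    let e : gsp (AlgHom.id ℂ D) p M →ₗ[ℂ] (∀ j : T, U j) :=
      LinearMap.pi fun j => LinearMap.codRestrict (U j)
        ((G.π j).comp (gsp (AlgHom.id ℂ D) p M).subtype)
        (fun m => (hU _ _).2 ⟨G.mem _ _, hp_of_gsp G hsm j m.2⟩)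
    have he : ∀ m (j : T), ((e m j : U j) : M) = G.π j (m : M) := fun m j => rfl
    have hinj : Function.Injective e := by
      rw [← LinearMap.ker_eq_bot, Submodule.eq_bot_iff]
      intro m hm
      apply Subtype.ext
      refine G.eq_zero fun j => ?_
      by_cases hj : j ∈ T
      · have h1 : e m ⟨j, hj⟩ = 0 := congrFun (show e m = 0 from hm) ⟨j, hj⟩
        exact congrArg Subtype.val h1
      · have h1 := G.mem j (m : M)
        rwa [hT j hj, Submodule.mem_bot] at h1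
    have hsurj : Function.Surjective e := by
      intro g
      have h1 : ∑ j : T, ((g j : U j) : M) ∈ gsp (AlgHom.id ℂ D) p M := by
        refine Submodule.sum_mem _ fun j _ => ?_
        have h2 := (hU j _).1 (g j).2
        exact gsp_of_hp hsm hp0 hT h2.1 h2.2
      refine ⟨⟨_, h1⟩, ?_⟩
      funext i
      apply Subtype.ext
      rw [he, map_sum]
      rw [Finset.sum_eq_single i]
      · exact G.same i _ ((hU i _).1 (g i).2).1
      · intro j _ hij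
        exact G.diff i j (fun h => hij (Subtype.ext h.symm)) _ ((hU j _).1 (g j).2).1
      · intro h
        exact absurd (Finset.mem_univ i) h
    have h3 := (LinearEquiv.ofBijective e ⟨hinj, hsurj⟩).finrank_eq
    rw [h3, Module.finrank_pi_fintype, Nat.cast_sum]
    rw [← Finset.sum_coe_sort T]
    rfl
  rw [key, Int.cast_natCast]

end

end Pool.Agent.V5helper17.CM
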